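import Mathlib

/-!
# The algebraic part: a `5 × 5` matrix without a displacement structure
-/

set_option autoImplicit false

namespace Q219.TTO

open Matrix Complex

/-- the direct sum of the `2 × 2` nilpotent matrix and of `diag(1, -1, i)` -/
def M₅ : Matrix (Fin 5) (Fin 5) ℂ :=
  !![0, 1, 0, 0, 0; 0, 0, 0, 0, 0; 0, 0, 1, 0, 0; 0, 0, 0, -1, 0; 0, 0, 0, 0, I]

/-- its adjoint -/
def M₅' : Matrix (Fin 5) (Fin 5) ℂ :=
  !![0, 0, 0, 0, 0; 1, 0, 0, 0, 0; 0, 0, 1, 0, 0; 0, 0, 0, -1, 0; 0, 0, 0, 0, -I]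

/-- the equations of one eigenvector outside of the hyperplane -/
theorem one_zero {lam mu z0 z1 l0 l1 al al' : ℂ} (hlm : lam * mu = 1)
    (e2 : -lam * z0 = al * l0) (e2' : z1 - mu * z0 = al' * l0)
    (e3 : z0 - lam * z1 = al * l1) (e3' : -mu * z1 = al' * l1) (h : al ≠ 0 ∨ al' ≠ 0) :
    mu * l0 ^ 2 + lam * l1 ^ 2 + l0 * l1 = 0 := by
  have hz0 : z0 = -mu * al * l0 := by linear_combination (-mu) * e2 + (-z0) * hlm
  have hz1 : z1 = -lam * al' * l1 := by linear_combination (-lam) * e3' + (-z1) * hlm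
  rw [hz0, hz1] at e2' e3
  -- `mu² al l0 = al' (l0 + lam l1)` and `lam² al' l1 = al (l1 + mu l0)`
  have f1 : mu ^ 2 * al * l0 = al' * (l0 + lam * l1) := by linear_combination e2'
  have f2 : lam ^ 2 * al' * l1 = al * (l1 + mu * l0) := by linear_combination e3
  by_cases h1 : al = 0
  · have h2 : al' ≠ 0 := by
      rcases h with h | h
      · exact absurd h1 h
      · exact h
    rw [h1] at f1 f2
    have g1 : l0 + lam * l1 = 0 := by
      have : al' * (l0 + lam * l1) = 0 := by linear_combination -f1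
      exact (mul_eq_zero.1 this).resolve_left h2
    have hl : lam ≠ 0 := left_ne_zero_of_mul_eq_one hlm
    have g2 : l1 = 0 := by
      have : (lam ^ 2 * al') * l1 = 0 := by linear_combination f2
      exact (mul_eq_zero.1 this).resolve_left (mul_ne_zero (pow_ne_zero _ hl) h2)
    have g3 : l0 = 0 := by rw [g2] at g1; simpa using g1
    rw [g2, g3]; ring
  · by_cases h2 : al' = 0
    · rw [h2] at f1 f2
      have g1 : l1 + mu * l0 = 0 := by
        have : al * (l1 + mu * l0) = 0 := by linear_combination -f2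
        exact (mul_eq_zero.1 this).resolve_left h1
      have hl : mu ≠ 0 := right_ne_zero_of_mul_eq_one hlm
      have g2 : l0 = 0 := by
        have : (mu ^ 2 * al) * l0 = 0 := by linear_combination f1
        exact (mul_eq_zero.1 this).resolve_left (mul_ne_zero (pow_ne_zero _ hl) h1)
      have g3 : l1 = 0 := by rw [g2] at g1; simpa using g1
      rw [g2, g3]; ring
    · have h3 : (al * al') * (mu * l0 ^ 2 + lam * l1 ^ 2 + l0 * l1) = 0 := by
        have h4 : (mu ^ 2 * al * l0) * (lam ^ 2 * al' * l1) =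
            al' * (l0 + lam * l1) * (al * (l1 + mu * l0)) := by rw [f1, f2]
        have h5 : mu ^ 2 * lam ^ 2 = 1 := by rw [← mul_pow, mul_comm mu lam, hlm, one_pow]
        linear_combination (-1 : ℂ) * h4 + (al * al' * l0 * l1) * h5 -
          (al * al' * l0 * l1) * hlm
      exact (mul_eq_zero.1 h3).resolve_left (mul_ne_zero h1 h2)

theorem sum_single {F : Fin 5 → ℂ} (i : Fin 5) :
    ∑ k, F k * (Pi.single i (1 : ℂ) : Fin 5 → ℂ) k = F i := by
  rw [Finset.sum_eq_single i]
  · simp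
  · intro k _ hk
    rw [Pi.single_eq_of_ne hk, mul_zero]
  · simp

theorem diag_ne {G : Fin 5 → Fin 5 → ℂ}
    (hnd : ∀ x : Fin 5 → ℂ, (∀ j, ∑ i, G j i * x i = 0) → x = 0) (i : Fin 5)
    (h : ∀ j, j ≠ i → G j i = 0) : G i i ≠ 0 := by
  intro h0
  have h1 := hnd (Pi.single i 1) (fun j => by
    rw [sum_single]
    by_cases hj : j = i
    · rw [hj, h0]
    · exact h j hj)
  have h2 := congrFun h1 i
  simp at h2

theorem single_contra {Z G : Fin 5 → Fin 5 → ℂ} {l : Fin 5 → ℂ}
    (hnd : ∀ x : Fin 5 → ℂ, (∀ j, ∑ i, G j i * x i = 0) → x = 0)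
    (hF : ∀ (x : Fin 5 → ℂ) (z : ℂ), ∑ i, l i * x i = 0 →
      (∀ j, ∑ i, Z j i * x i = z * ∑ i, G j i * x i) → x = 0) (i : Fin 5) (hl : l i = 0)
    (h : ∀ j, j ≠ i → G j i = 0) (h' : ∀ j, j ≠ i → Z j i = 0) : False := by
  have h0 := diag_ne hnd i h
  have h1 := hF (Pi.single i 1) (Z i i / G i i) (by rw [sum_single, hl]) (fun j => by
    rw [sum_single, sum_single]
    by_cases hj : j = i
    · rw [hj, div_mul_cancel₀ _ h0]
    · rw [h j hj, h' j hj, mul_zero])
  have h2 := congrFun h1 i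
  simp at h2

theorem no_structure {Z G : Fin 5 → Fin 5 → ℂ} {l al al' : Fin 5 → ℂ}
    (hZ : ∀ i j, Z i j = Z j i) (hG : ∀ i j, G i j = G j i)
    (hA : ∀ i j, ∑ k, M₅ k j * Z i k - ∑ k, M₅ k i * Z k j = al i * l j - l i * al j)
    (hA' : ∀ i j, ∑ k, M₅' k j * Z i k - ∑ k, M₅' k i * Z k j = al' i * l j - l i * al' j)
    (hGM : ∀ i j, ∑ k, M₅ k j * G i k = ∑ k, M₅ k i * G k j)
    (hGM' : ∀ i j, ∑ k, M₅' k j * G i k = ∑ k, M₅' k i * G k j)
    (hnd : ∀ x : Fin 5 → ℂ, (∀ j, ∑ i, G j i * x i = 0) → x = 0)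
    (hF : ∀ (x : Fin 5 → ℂ) (z : ℂ), ∑ i, l i * x i = 0 →
      (∀ j, ∑ i, Z j i * x i = z * ∑ i, G j i * x i) → x = 0) : False := by
  have hI : I ^ 2 = -1 := Complex.I_sq
  have hI0 : I ≠ 0 := Complex.I_ne_zero
  have h20 : (2 : ℂ) ≠ 0 := two_ne_zero
  -- the form `G`
  have g02 := hGM 0 2
  have g12 := hGM 1 2
  have g03 := hGM 0 3
  have g13 := hGM 1 3
  have g04 := hGM 0 4
  have g14 := hGM 1 4
  have g23 := hGM 2 3
  have g24 := hGM 2 4
  have g34 := hGM 3 4
  have g00 := hGM 0 1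
  have g11 := hGM' 1 0
  simp only [M₅, M₅', Fin.sum_univ_five] at g02 g12 g03 g13 g04 g14 g23 g24 g34 g00 g11
  simp at g02 g12 g03 g13 g04 g14 g23 g24 g34 g00 g11
  rw [g02] at g12
  have g13' : G 1 3 = 0 := by linear_combination (-1 : ℂ) * g13 - g03
  have g14' : G 1 4 = 0 := by
    have : I * G 1 4 = 0 := by rw [g14, g04]
    exact (mul_eq_zero.1 this).resolve_left hI0
  have g23' : G 2 3 = 0 := by linear_combination (-1 / 2 : ℂ) * g23
  have g24' : G 2 4 = 0 := by
    have : (I - 1) * G 2 4 = 0 := by linear_combination g24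
    refine (mul_eq_zero.1 this).resolve_left fun h => ?_
    have := congrArg Complex.im h
    simp at this
  have g34' : G 3 4 = 0 := by
    have : (I + 1) * G 3 4 = 0 := by linear_combination g34
    refine (mul_eq_zero.1 this).resolve_left fun h => ?_
    have := congrArg Complex.im h
    simp at this
  -- the equations
  have a23 := hA 2 3
  have a24 := hA 2 4
  have a34 := hA 3 4
  have b23 := hA' 2 3
  have b24 := hA' 2 4
  have b34 := hA' 3 4
  have e20 := hA 2 0
  have e21 := hA 2 1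
  have f20 := hA' 2 0
  have f21 := hA' 2 1
  have e30 := hA 3 0
  have e31 := hA 3 1
  have f30 := hA' 3 0
  have f31 := hA' 3 1
  have e40 := hA 4 0
  have e41 := hA 4 1
  have f40 := hA' 4 0
  have f41 := hA' 4 1
  have e01 := hA 0 1
  have f01 := hA' 0 1
  simp only [M₅, M₅', Fin.sum_univ_five] at a23 a24 a34 b23 b24 b34 e20 e21 f20 f21 e30 e31 f30 f31
  simp only [M₅, M₅', Fin.sum_univ_five] at e40 e41 f40 f41 e01 f01
  simp at a23 a24 a34 b23 b24 b34 e20 e21 f20 f21 e30 e31 f30 f31 e40 e41 f40 f41 e01 f01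
  have hG01 : G 0 1 ≠ 0 := by
    intro h0
    have h1 := hnd ![0, 1, 0, 0, 0] (fun j => by
      rw [Fin.sum_univ_five]
      fin_cases j
      · simp [h0]
      · simp [g11]
      · simp [hG 2 1, g12]
      · simp [hG 3 1, g13']
      · simp [hG 4 1, g14'])
    have h2 := congrFun h1 1
    simp at h2
  -- vectors in the plane
  have hW : ∀ x0 x1 z : ℂ, (x0 ≠ 0 ∨ x1 ≠ 0) → l 0 * x0 + l 1 * x1 = 0 →
      Z 2 0 * x0 + Z 2 1 * x1 = 0 → Z 3 0 * x0 + Z 3 1 * x1 = 0 →
      Z 4 0 * x0 + Z 4 1 * x1 = 0 → Z 0 0 * x0 + Z 0 1 * x1 = z * (G 0 1 * x1) →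
      Z 0 1 * x0 + Z 1 1 * x1 = z * (G 0 1 * x0) → False := by
    intro x0 x1 z hx h1 h2 h3 h4 h5 h6
    have h7 := hF ![x0, x1, 0, 0, 0] z (by
      rw [Fin.sum_univ_five]
      simpa using h1) (fun j => by
      rw [Fin.sum_univ_five, Fin.sum_univ_five]
      fin_cases j
      · simpa [g00] using h5
      · simpa [g11, hZ 1 0, hG 1 0] using h6
      · simpa [hG 2 0, hG 2 1, g02, g12] using h2
      · simpa [hG 3 0, hG 3 1, g03, g13'] using h3
      · simpa [hG 4 0, hG 4 1, g04, g14'] using h4)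
    have h8 := congrFun h7 0
    have h9 := congrFun h7 1
    simp at h8 h9
    rcases hx with hx | hx
    · exact hx h8
    · exact hx h9
  have hch : ∀ p q : ℂ, ∃ x0 x1 : ℂ, (x0 ≠ 0 ∨ x1 ≠ 0) ∧ p * x0 + q * x1 = 0 := by
    intro p q
    by_cases hq : q = 0
    · by_cases hp : p = 0
      · exact ⟨1, 0, Or.inl one_ne_zero, by rw [hp]; ring⟩
      · exact ⟨q, -p, Or.inr (neg_ne_zero.2 hp), by ring⟩
    · exact ⟨q, -p, Or.inl hq, by ring⟩
  -- if the functional vanishes on the plane and at two of the three eigenvectors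
  have hend : l 0 = 0 → l 1 = 0 → ((Z 2 0 = 0 ∧ Z 2 1 = 0) ∧ (Z 3 0 = 0 ∧ Z 3 1 = 0)) ∨
      ((Z 2 0 = 0 ∧ Z 2 1 = 0) ∧ (Z 4 0 = 0 ∧ Z 4 1 = 0)) ∨
      ((Z 3 0 = 0 ∧ Z 3 1 = 0) ∧ (Z 4 0 = 0 ∧ Z 4 1 = 0)) → False := by
    intro h0 h1 h
    have z00 : Z 0 0 = 0 := by rw [e01, h0, h1]; ring
    have z11 : Z 1 1 = 0 := by
      have : -Z 1 1 = 0 := by rw [f01, h0, h1]; ring
      linear_combination (-1 : ℂ) * this
    rcases h with ⟨⟨k1, k2⟩, k3, k4⟩ | ⟨⟨k1, k2⟩, k3, k4⟩ | ⟨⟨k1, k2⟩, k3, k4⟩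
    · obtain ⟨x0, x1, hx, hx'⟩ := hch (Z 4 0) (Z 4 1)
      refine hW x0 x1 (Z 0 1 / G 0 1) hx (by rw [h0, h1]; ring) (by rw [k1, k2]; ring)
        (by rw [k3, k4]; ring) hx' (by rw [z00]; field_simp; ring) (by rw [z11]; field_simp; ring)
    · obtain ⟨x0, x1, hx, hx'⟩ := hch (Z 3 0) (Z 3 1)
      refine hW x0 x1 (Z 0 1 / G 0 1) hx (by rw [h0, h1]; ring) (by rw [k1, k2]; ring)
        hx' (by rw [k3, k4]; ring) (by rw [z00]; field_simp; ring) (by rw [z11]; field_simp; ring)
    · obtain ⟨x0, x1, hx, hx'⟩ := hch (Z 2 0) (Z 2 1)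
      refine hW x0 x1 (Z 0 1 / G 0 1) hx (by rw [h0, h1]; ring) hx' (by rw [k1, k2]; ring)
        (by rw [k3, k4]; ring) (by rw [z00]; field_simp; ring) (by rw [z11]; field_simp; ring)
  -- single eigenvectors in the hyperplane
  have n2 : l 2 = 0 → al 2 ≠ 0 ∨ al' 2 ≠ 0 := by
    intro h0
    by_contra hcon
    push Not at hcon
    obtain ⟨c1, c2⟩ := hcon
    rw [h0, c1] at a23 a24 e20
    rw [h0, c2] at f21
    have z23 : Z 2 3 = 0 := by linear_combination (-1 / 2 : ℂ) * a23
    have z24 : Z 2 4 = 0 := by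
      have : (I - 1) * Z 2 4 = 0 := by linear_combination a24
      refine (mul_eq_zero.1 this).resolve_left fun h => ?_
      have := congrArg Complex.im h
      simp at this
    have z20 : Z 2 0 = 0 := by linear_combination (-1 : ℂ) * e20
    have z21 : Z 2 1 = 0 := by linear_combination (-1 : ℂ) * f21
    refine single_contra hnd hF 2 h0 (fun j hj => ?_) (fun j hj => ?_)
    · fin_cases j
      · exact g02
      · exact g12
      · exact absurd rfl hj
      · exact (hG 3 2).trans g23'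
      · exact (hG 4 2).trans g24'
    · fin_cases j
      · exact (hZ 0 2).trans z20
      · exact (hZ 1 2).trans z21
      · exact absurd rfl hj
      · exact (hZ 3 2).trans z23
      · exact (hZ 4 2).trans z24
  have n3 : l 3 = 0 → al 3 ≠ 0 ∨ al' 3 ≠ 0 := by
    intro h0
    by_contra hcon
    push Not at hcon
    obtain ⟨c1, c2⟩ := hcon
    rw [h0, c1] at a23 a34 e30
    rw [h0, c2] at f31
    have z23 : Z 2 3 = 0 := by linear_combination (-1 / 2 : ℂ) * a23
    have z34 : Z 3 4 = 0 := by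
      have : (I + 1) * Z 3 4 = 0 := by linear_combination a34
      refine (mul_eq_zero.1 this).resolve_left fun h => ?_
      have := congrArg Complex.im h
      simp at this
    have z30 : Z 3 0 = 0 := by linear_combination e30
    have z31 : Z 3 1 = 0 := by linear_combination f31
    refine single_contra hnd hF 3 h0 (fun j hj => ?_) (fun j hj => ?_)
    · fin_cases j
      · exact g03
      · exact g13'
      · exact g23'
      · exact absurd rfl hj
      · exact (hG 4 3).trans g34'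
    · fin_cases j
      · exact (hZ 0 3).trans z30
      · exact (hZ 1 3).trans z31
      · exact z23
      · exact absurd rfl hj
      · exact (hZ 4 3).trans z34
  have n4 : l 4 = 0 → al 4 ≠ 0 ∨ al' 4 ≠ 0 := by
    intro h0
    by_contra hcon
    push Not at hcon
    obtain ⟨c1, c2⟩ := hcon
    rw [h0, c1] at a24 a34 e40
    rw [h0, c2] at f41
    have z24 : Z 2 4 = 0 := by
      have : (I - 1) * Z 2 4 = 0 := by linear_combination a24
      refine (mul_eq_zero.1 this).resolve_left fun h => ?_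
      have := congrArg Complex.im h
      simp at this
    have z34 : Z 3 4 = 0 := by
      have : (I + 1) * Z 3 4 = 0 := by linear_combination a34
      refine (mul_eq_zero.1 this).resolve_left fun h => ?_
      have := congrArg Complex.im h
      simp at this
    have z40 : Z 4 0 = 0 := by
      have : I * Z 4 0 = 0 := by linear_combination (-1 : ℂ) * e40
      exact (mul_eq_zero.1 this).resolve_left hI0
    have z41 : Z 4 1 = 0 := by
      have : I * Z 4 1 = 0 := by linear_combination f41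
      exact (mul_eq_zero.1 this).resolve_left hI0
    refine single_contra hnd hF 4 h0 (fun j hj => ?_) (fun j hj => ?_)
    · fin_cases j
      · exact g04
      · exact g14'
      · exact g24'
      · exact g34'
      · exact absurd rfl hj
    · fin_cases j
      · exact (hZ 0 4).trans z40
      · exact (hZ 1 4).trans z41
      · exact z24
      · exact z34
      · exact absurd rfl hj
  have s2 : l 2 = 0 → l 0 ^ 2 + l 1 ^ 2 + l 0 * l 1 = 0 := by
    intro h0
    have h1 := one_zero (lam := 1) (mu := 1) (z0 := Z 2 0) (z1 := Z 2 1) (l0 := l 0) (l1 := l 1)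
      (al := al 2) (al' := al' 2) (by ring) (by rw [h0] at e20; linear_combination e20)
      (by rw [h0] at f20; linear_combination f20) (by rw [h0] at e21; linear_combination e21)
      (by rw [h0] at f21; linear_combination f21) (n2 h0)
    linear_combination h1
  have s3 : l 3 = 0 → -l 0 ^ 2 - l 1 ^ 2 + l 0 * l 1 = 0 := by
    intro h0
    have h1 := one_zero (lam := -1) (mu := -1) (z0 := Z 3 0) (z1 := Z 3 1) (l0 := l 0)
      (l1 := l 1) (al := al 3) (al' := al' 3) (by ring) (by rw [h0] at e30; linear_combination e30)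
      (by rw [h0] at f30; linear_combination f30) (by rw [h0] at e31; linear_combination e31)
      (by rw [h0] at f31; linear_combination f31) (n3 h0)
    linear_combination h1
  have s4 : l 4 = 0 → -I * l 0 ^ 2 + I * l 1 ^ 2 + l 0 * l 1 = 0 := by
    intro h0
    have h1 := one_zero (lam := I) (mu := -I) (z0 := Z 4 0) (z1 := Z 4 1) (l0 := l 0)
      (l1 := l 1) (al := al 4) (al' := al' 4) (by linear_combination -hI)
      (by rw [h0] at e40; linear_combination e40)
      (by rw [h0] at f40; linear_combination f40) (by rw [h0] at e41; linear_combination e41)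
      (by rw [h0] at f41; linear_combination f41) (n4 h0)
    linear_combination h1
  -- values
  have v2 : l 2 = 0 → l 0 = 0 → l 1 = 0 → Z 2 0 = 0 ∧ Z 2 1 = 0 := by
    intro k2 k0 k1
    rw [k2, k0] at e20
    rw [k2, k1] at f21
    exact ⟨by linear_combination (-1 : ℂ) * e20, by linear_combination (-1 : ℂ) * f21⟩
  have v3 : l 3 = 0 → l 0 = 0 → l 1 = 0 → Z 3 0 = 0 ∧ Z 3 1 = 0 := by
    intro k2 k0 k1
    rw [k2, k0] at e30
    rw [k2, k1] at f31
    exact ⟨by linear_combination e30, by linear_combination f31⟩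
  have v4 : l 4 = 0 → l 0 = 0 → l 1 = 0 → Z 4 0 = 0 ∧ Z 4 1 = 0 := by
    intro k2 k0 k1
    rw [k2, k0] at e40
    rw [k2, k1] at f41
    have h1 : I * Z 4 0 = 0 := by linear_combination (-1 : ℂ) * e40
    have h2 : I * Z 4 1 = 0 := by linear_combination f41
    exact ⟨(mul_eq_zero.1 h1).resolve_left hI0, (mul_eq_zero.1 h2).resolve_left hI0⟩
  have sq0 : ∀ x : ℂ, x ^ 2 = 0 → x = 0 := fun x hx => pow_eq_zero_iff two_ne_zero |>.1 hx
  have t23 : l 2 = 0 → l 3 = 0 → False := by
    intro k2 k3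
    have h1 := s2 k2
    have h2 := s3 k3
    have h3 : l 0 * l 1 = 0 := by linear_combination (1 / 2 : ℂ) * h1 + (1 / 2 : ℂ) * h2
    have h4 : l 0 = 0 ∧ l 1 = 0 := by
      rcases mul_eq_zero.1 h3 with h | h
      · refine ⟨h, sq0 _ ?_⟩
        rw [h] at h1; linear_combination h1
      · refine ⟨sq0 _ ?_, h⟩
        rw [h] at h1; linear_combination h1
    exact hend h4.1 h4.2 (Or.inl ⟨v2 k2 h4.1 h4.2, v3 k3 h4.1 h4.2⟩)
  have t24 : l 2 = 0 → l 4 = 0 → False := by
    intro k2 k4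
    have h1 := s2 k2
    have h2 := s4 k4
    have h3 : l 1 * ((1 + I) * l 0 + 2 * I * l 1) = 0 := by linear_combination I * h1 + h2
    have h4 : l 0 = 0 ∧ l 1 = 0 := by
      rcases mul_eq_zero.1 h3 with h | h
      · refine ⟨sq0 _ ?_, h⟩
        rw [h] at h1; linear_combination h1
      · have h5 : l 0 = -(1 + I) * l 1 := by
          linear_combination ((1 - I) / 2) * h + (1 / 2 * l 0 + l 1) * hI
        rw [h5] at h1
        have h6 : I * l 1 ^ 2 = 0 := by linear_combination h1 - l 1 ^ 2 * hI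
        have h7 := sq0 _ ((mul_eq_zero.1 h6).resolve_left hI0)
        exact ⟨by rw [h5, h7, mul_zero], h7⟩
    exact hend h4.1 h4.2 (Or.inr (Or.inl ⟨v2 k2 h4.1 h4.2, v4 k4 h4.1 h4.2⟩))
  have t34 : l 3 = 0 → l 4 = 0 → False := by
    intro k3 k4
    have h1 := s3 k3
    have h2 := s4 k4
    have h3 : l 1 * ((1 - I) * l 0 + 2 * I * l 1) = 0 := by linear_combination (-I) * h1 + h2
    have h4 : l 0 = 0 ∧ l 1 = 0 := by
      rcases mul_eq_zero.1 h3 with h | h
      · refine ⟨sq0 _ ?_, h⟩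
        rw [h] at h1; linear_combination (-1 : ℂ) * h1
      · have h5 : l 0 = (1 - I) * l 1 := by
          linear_combination ((1 + I) / 2) * h + (1 / 2 * l 0 - l 1) * hI
        rw [h5] at h1
        have h6 : I * l 1 ^ 2 = 0 := by linear_combination h1 + l 1 ^ 2 * hI
        have h7 := sq0 _ ((mul_eq_zero.1 h6).resolve_left hI0)
        exact ⟨by rw [h5, h7, mul_zero], h7⟩
    exact hend h4.1 h4.2 (Or.inr (Or.inr ⟨v3 k3 h4.1 h4.2, v4 k4 h4.1 h4.2⟩))
  have hI1 : (1 : ℂ) + I ≠ 0 := fun h => by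
    have := congrArg Complex.im h
    simp at this
  have hI2 : (1 : ℂ) - I ≠ 0 := fun h => by
    have := congrArg Complex.im h
    simp at this
  have k2 : l 2 ≠ 0 := by
    intro h2
    have h3 : l 3 ≠ 0 := fun h => t23 h2 h
    have h4 : l 4 ≠ 0 := fun h => t24 h2 h
    have h5 : al 2 = al' 2 := by
      have : (al 2 - al' 2) * l 3 = 0 := by
        linear_combination b23 - a23 + (al 3 - al' 3) * h2
      exact sub_eq_zero.1 ((mul_eq_zero.1 this).resolve_right h3)
    have h6 : al 2 = 0 := by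
      have : (2 * I) * al 2 * l 4 = 0 := by
        rw [← h5] at b24
        linear_combination (-(1 + I)) * a24 - (I - 1) * b24 + ((1 + I) * al 4 + (I - 1) * al' 4) * h2
      exact (mul_eq_zero.1 ((mul_eq_zero.1 this).resolve_right h4)).resolve_left
        (mul_ne_zero two_ne_zero hI0)
    rcases n2 h2 with h | h
    · exact h h6
    · exact h (h5 ▸ h6)
  have k3 : l 3 ≠ 0 := by
    intro h3
    have h4 : l 4 ≠ 0 := fun h => t34 h3 h
    have h5 : al 3 = al' 3 := by
      have : (al 3 - al' 3) * l 2 = 0 := by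
        linear_combination a23 - b23 + (al 2 - al' 2) * h3
      exact sub_eq_zero.1 ((mul_eq_zero.1 this).resolve_right k2)
    have h6 : al 3 = 0 := by
      have : (2 * I) * al 3 * l 4 = 0 := by
        rw [← h5] at b34
        linear_combination (1 - I) * a34 - (1 + I) * b34 - ((1 - I) * al 4 - (1 + I) * al' 4) * h3
      exact (mul_eq_zero.1 ((mul_eq_zero.1 this).resolve_right h4)).resolve_left
        (mul_ne_zero two_ne_zero hI0)
    rcases n3 h3 with h | h
    · exact h h6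
    · exact h (h5 ▸ h6)
  have k4 : l 4 ≠ 0 := by
    intro h4
    -- `al' 4 = i al 4` and `al' 4 = -i al 4`
    have h5 : al' 4 = I * al 4 := by
      have : (al' 4 - I * al 4) * l 2 = 0 := by
        linear_combination (-(1 + I) / 2) * ((I + 1) * a24 + (I - 1) * b24) +
          (-(1 + I) / 2) * ((I + 1) * al 2 + (I - 1) * al' 2) * h4 +
          (l 2 * (al' 4 + al 4) / 2) * hI
      exact sub_eq_zero.1 ((mul_eq_zero.1 this).resolve_right k2)
    have h6 : al' 4 = -I * al 4 := by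
      have : (al' 4 - (-I) * al 4) * l 3 = 0 := by
        linear_combination (-(1 - I) / 2) * ((1 - I) * a34 - (1 + I) * b34) +
          (-(1 - I) / 2) * ((1 - I) * al 3 - (1 + I) * al' 3) * h4 +
          (l 3 * (al' 4 + al 4) / 2) * hI
      exact sub_eq_zero.1 ((mul_eq_zero.1 this).resolve_right k3)
    have h7 : al 4 = 0 := by
      have : (2 * I) * al 4 = 0 := by linear_combination h6 - h5
      exact (mul_eq_zero.1 this).resolve_left (mul_ne_zero two_ne_zero hI0)
    rcases n4 h4 with h | h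
    · exact h h7
    · exact h (by rw [h5, h7, mul_zero])
  -- all three components are different from zero
  obtain ⟨m2, hm2⟩ : ∃ m2, al 2 = m2 * l 2 := ⟨al 2 / l 2, by field_simp⟩
  obtain ⟨m3, hm3⟩ : ∃ m3, al 3 = m3 * l 3 := ⟨al 3 / l 3, by field_simp⟩
  obtain ⟨m4, hm4⟩ : ∃ m4, al 4 = m4 * l 4 := ⟨al 4 / l 4, by field_simp⟩
  obtain ⟨w2, hw2⟩ : ∃ w2, al' 2 = w2 * l 2 := ⟨al' 2 / l 2, by field_simp⟩
  obtain ⟨w3, hw3⟩ : ∃ w3, al' 3 = w3 * l 3 := ⟨al' 3 / l 3, by field_simp⟩
  obtain ⟨w4, hw4⟩ : ∃ w4, al' 4 = w4 * l 4 := ⟨al' 4 / l 4, by field_simp⟩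
  rw [hm2, hm3] at a23
  rw [hm2, hm4] at a24
  rw [hm3, hm4] at a34
  rw [hw2, hw3] at b23
  rw [hw2, hw4] at b24
  rw [hw3, hw4] at b34
  rw [hm2] at e20 e21
  rw [hw2] at f20 f21
  rw [hm3] at e30 e31
  rw [hw3] at f30 f31
  rw [hm4] at e40 e41
  rw [hw4] at f40 f41
  have c23 : w2 - w3 = m2 - m3 := by
    have : (w2 - w3 - (m2 - m3)) * (l 2 * l 3) = 0 := by linear_combination a23 - b23
    exact sub_eq_zero.1 ((mul_eq_zero.1 this).resolve_right (mul_ne_zero k2 k3))
  have c24 : w2 - w4 = I * (m2 - m4) := by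
    have : (w2 - w4 - I * (m2 - m4)) * (l 2 * l 4) = 0 := by
      linear_combination ((1 + I) / 2) * ((I + 1) * a24 + (I - 1) * b24) +
        (-(l 2 * l 4) * ((m2 - m4) + (w2 - w4)) / 2) * hI * (-1 : ℂ)
    exact sub_eq_zero.1 ((mul_eq_zero.1 this).resolve_right (mul_ne_zero k2 k4))
  have c34 : w3 - w4 = -I * (m3 - m4) := by
    have : (w3 - w4 - (-I) * (m3 - m4)) * (l 3 * l 4) = 0 := by
      linear_combination ((1 - I) / 2) * ((1 - I) * a34 - (1 + I) * b34) +
        ((l 3 * l 4) * ((m3 - m4) + (w3 - w4)) / 2) * hI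
    exact sub_eq_zero.1 ((mul_eq_zero.1 this).resolve_right (mul_ne_zero k3 k4))
  have c4 : m4 = (m2 + m3) / 2 + I * (m2 - m3) / 2 := by
    linear_combination (-I / 2) * (c24 - c34 - c23) + (m4 - (m2 + m3) / 2) * hI
  obtain ⟨c, hc⟩ : ∃ c, c = (m3 - m2) / 2 := ⟨_, rfl⟩
  obtain ⟨v, hv⟩ : ∃ v, v = (m2 + m3) / 2 := ⟨_, rfl⟩
  obtain ⟨v', hv'⟩ : ∃ v', v' = (w2 + w3) / 2 := ⟨_, rfl⟩
  have hm2' : m2 = v - c := by rw [hv, hc]; ring
  have hm3' : m3 = v + c := by rw [hv, hc]; ring
  have hm4' : m4 = v - c * I := by rw [c4, hv, hc]; ring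
  have hw2' : w2 = v' - c := by rw [hv', hc]; linear_combination (1 / 2 : ℂ) * c23
  have hw3' : w3 = v' + c := by rw [hv', hc]; linear_combination (-1 / 2 : ℂ) * c23
  have hw4' : w4 = v' + c * I := by
    have h1 : w4 = w2 - I * (m2 - m4) := by linear_combination (-1 : ℂ) * c24
    rw [h1, hw2', hm2', hm4']
    linear_combination (-c) * hI
  rw [hm2'] at e20 e21
  rw [hw2'] at f20 f21
  rw [hm3'] at e30 e31
  rw [hw3'] at f30 f31
  rw [hm4'] at e40
  rw [hw4'] at f41
  have P1 : al 0 - (v - c) * l 0 - al' 1 + (v' - c) * l 1 = (v - c) * l 1 - al 1 := by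
    refine mul_left_cancel₀ k2 ?_
    linear_combination e21 + e20 - f21
  have Q1 : (v + c) * l 0 - al 0 + (v' + c) * l 1 - al' 1 = (v + c) * l 1 - al 1 := by
    refine mul_left_cancel₀ k3 ?_
    linear_combination e31 - e30 - f31
  have P2 : al' 1 - (v' - c) * l 1 - al 0 + (v - c) * l 0 = (v' - c) * l 0 - al' 0 := by
    refine mul_left_cancel₀ k2 ?_
    linear_combination f20 + f21 - e20
  have Q2 : (v' + c) * l 1 - al' 1 + (v + c) * l 0 - al 0 = (v' + c) * l 0 - al' 0 := by
    refine mul_left_cancel₀ k3 ?_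
    linear_combination f30 - f31 - e30
  have h0 : al 0 = v * l 0 := by linear_combination (1 / 2 : ℂ) * (P1 - Q1)
  have h1' : al' 1 = v' * l 1 := by linear_combination (1 / 2 : ℂ) * (P2 - Q2)
  have h1 : al 1 = v * l 1 - c * l 0 := by
    rw [h0, h1'] at P1
    linear_combination P1
  have h0' : al' 0 = v' * l 0 - c * l 1 := by
    rw [h0, h1'] at P2
    linear_combination P2
  have z20 : Z 2 0 = c * l 2 * l 0 := by rw [h0] at e20; linear_combination (-1 : ℂ) * e20
  have z21 : Z 2 1 = c * l 2 * l 1 := by rw [h1'] at f21; linear_combination (-1 : ℂ) * f21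
  have z30 : Z 3 0 = c * l 3 * l 0 := by rw [h0] at e30; linear_combination e30
  have z31 : Z 3 1 = c * l 3 * l 1 := by rw [h1'] at f31; linear_combination f31
  have z40 : Z 4 0 = c * l 4 * l 0 := by
    rw [h0] at e40
    refine mul_left_cancel₀ hI0 ?_
    linear_combination (-1 : ℂ) * e40
  have z41 : Z 4 1 = c * l 4 * l 1 := by
    rw [h1'] at f41
    refine mul_left_cancel₀ hI0 ?_
    linear_combination f41
  have z00 : Z 0 0 = c * l 0 ^ 2 := by rw [h0, h1] at e01; linear_combination e01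
  have z11 : Z 1 1 = c * l 1 ^ 2 := by rw [h0', h1'] at f01; linear_combination (-1 : ℂ) * f01
  obtain ⟨x0, x1, hx, hx'⟩ := hch (l 0) (l 1)
  refine hW x0 x1 ((Z 0 1 - c * l 0 * l 1) / G 0 1) hx hx' ?_ ?_ ?_ ?_ ?_
  · rw [z20, z21]; linear_combination (c * l 2) * hx'
  · rw [z30, z31]; linear_combination (c * l 3) * hx'
  · rw [z40, z41]; linear_combination (c * l 4) * hx'
  · rw [z00, ← mul_assoc, div_mul_cancel₀ _ hG01]; linear_combination (c * l 0) * hx'
  · rw [z11, ← mul_assoc, div_mul_cancel₀ _ hG01]; linear_combination (c * l 1) * hx'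

end Q219.TTO
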