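import Pool.Agent.Q219.TTO.Alg

/-!
# The displacement structure
-/

set_option autoImplicit false

namespace Q219.TTO

open Polynomial

variable {ι : Type*} [Fintype ι]

/-- the polynomial with given coordinates -/
noncomputable def pol (p : ι → ℂ[X]) (x : ι → ℂ) : ℂ[X] := ∑ j, x j • p j

theorem pol_add (p : ι → ℂ[X]) (x y : ι → ℂ) : pol p (x + y) = pol p x + pol p y := by
  unfold pol
  rw [← Finset.sum_add_distrib]
  exact Finset.sum_congr rfl fun j _ => by rw [Pi.add_apply, add_smul]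

theorem pol_smul (p : ι → ℂ[X]) (c : ℂ) (x : ι → ℂ) : pol p (c • x) = c • pol p x := by
  unfold pol
  rw [Finset.smul_sum]
  exact Finset.sum_congr rfl fun j _ => by rw [Pi.smul_apply, smul_eq_mul, mul_smul]

theorem pol_degree {p : ι → ℂ[X]} {N : ℕ} (hp : ∀ j, (p j).degree < N) (x : ι → ℂ) :
    (pol p x).degree < N := by
  have h : pol p x ∈ degreeLT ℂ N :=
    Submodule.sum_mem _ fun j _ => Submodule.smul_mem _ _ (mem_degreeLT.2 (hp j))
  exact mem_degreeLT.1 h

theorem pol_coeff (p : ι → ℂ[X]) (x : ι → ℂ) (k : ℕ) :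
    (pol p x).coeff k = ∑ j, (p j).coeff k * x j := by
  unfold pol
  rw [finsetSum_coeff]
  exact Finset.sum_congr rfl fun j _ => by rw [coeff_smul, smul_eq_mul, mul_comm]

/-- a functional at a product with a combination -/
theorem map_pol (Λ : ℂ[X] →ₗ[ℂ] ℂ) (p : ι → ℂ[X]) (h : ℂ[X]) (x : ι → ℂ) :
    Λ (h * pol p x) = ∑ j, Λ (h * p j) * x j := by
  unfold pol
  rw [Finset.mul_sum, map_sum]
  exact Finset.sum_congr rfl fun j _ => by
    rw [mul_smul_comm, map_smul, smul_eq_mul, mul_comm]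

theorem degree_lt_pred {N : ℕ} {r : ℂ[X]} (hr : r.degree < N) (h0 : r.coeff (N - 1) = 0) :
    r.degree < (N - 1 : ℕ) := by
  rw [degree_lt_iff_coeff_zero] at hr ⊢
  intro m hm
  rcases Nat.lt_or_ge m N with h | h
  · have : m = N - 1 := by omega
    rw [this, h0]
  · exact hr m h

theorem degree_X_mul_lt {N : ℕ} {r : ℂ[X]} (hN : 0 < N) (hr : r.degree < (N - 1 : ℕ)) :
    ((X : ℂ[X]) * r).degree < (N : ℕ) := by
  rw [degree_lt_iff_coeff_zero] at hr ⊢
  intro m hm
  obtain ⟨k, rfl⟩ : ∃ k, m = k + 1 := ⟨m - 1, by omega⟩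
  rw [coeff_X_mul]
  exact hr k (by omega)

section

variable {p : ι → ℂ[X]} {N : ℕ} (hN : 0 < N)
  (hspan : ∀ r : ℂ[X], r.degree < N → ∃ x : ι → ℂ, r = pol p x) (Λ Φ : ℂ[X] →ₗ[ℂ] ℂ)
  (M : Matrix ι ι ℂ)

/-- the antisymmetric form -/
noncomputable def Af (p : ι → ℂ[X]) (Λ : ℂ[X] →ₗ[ℂ] ℂ) (M : Matrix ι ι ℂ) (u w : ι → ℂ) : ℂ :=
  Λ (X * pol p u * pol p (M.mulVec w)) - Λ (X * pol p (M.mulVec u) * pol p w)

theorem Af_anti (u w : ι → ℂ) : Af p Λ M u w = -Af p Λ M w u := by
  unfold Af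
  rw [show X * pol p u * pol p (M.mulVec w) = X * pol p (M.mulVec w) * pol p u by ring,
    show X * pol p (M.mulVec u) * pol p w = X * pol p w * pol p (M.mulVec u) by ring]
  ring

theorem Af_add (u v w : ι → ℂ) : Af p Λ M (u + v) w = Af p Λ M u w + Af p Λ M v w := by
  unfold Af
  rw [Matrix.mulVec_add, pol_add, pol_add]
  simp only [mul_add, add_mul, map_add]
  ring

theorem Af_smul (c : ℂ) (u w : ι → ℂ) : Af p Λ M (c • u) w = c * Af p Λ M u w := by
  unfold Af
  rw [Matrix.mulVec_smul, pol_smul, pol_smul]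
  simp only [mul_smul_comm, smul_mul_assoc, map_smul, smul_eq_mul]
  ring

theorem Af_add' (u v w : ι → ℂ) : Af p Λ M w (u + v) = Af p Λ M w u + Af p Λ M w v := by
  rw [Af_anti, Af_add, Af_anti Λ M u w, Af_anti Λ M v w]
  ring

theorem Af_smul' (c : ℂ) (u w : ι → ℂ) : Af p Λ M w (c • u) = c * Af p Λ M w u := by
  rw [Af_anti, Af_smul, Af_anti Λ M u w]
  ring

variable {Λ Φ M}

theorem transfer (h : ∀ i j, Φ (p i * p j) = ∑ l, M l i * Λ (p l * p j)) (u w : ι → ℂ) :
    Φ (pol p u * pol p w) = Λ (pol p (M.mulVec u) * pol p w) := by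
  rw [map_pol, map_pol]
  refine Finset.sum_congr rfl fun j _ => ?_
  congr 1
  rw [mul_comm (pol p u), mul_comm (pol p (M.mulVec u)), map_pol, map_pol]
  have e : ∀ i, Φ (p j * p i) * u i = ∑ l, Λ (p j * p l) * (M l i * u i) := by
    intro i
    rw [mul_comm (p j), h i j, Finset.sum_mul]
    exact Finset.sum_congr rfl fun l _ => by rw [mul_comm (p l)]; ring
  simp only [e]
  rw [Finset.sum_comm]
  refine Finset.sum_congr rfl fun l _ => ?_
  rw [← Finset.mul_sum]
  rfl

include hN hspan in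
theorem Af_zero (h : ∀ i j, Φ (p i * p j) = ∑ l, M l i * Λ (p l * p j)) (u w : ι → ℂ)
    (hu : (pol p u).degree < (N - 1 : ℕ)) (hw : (pol p w).degree < (N - 1 : ℕ)) :
    Af p Λ M u w = 0 := by
  obtain ⟨u', hu'⟩ := hspan _ (degree_X_mul_lt hN hu)
  obtain ⟨w', hw'⟩ := hspan _ (degree_X_mul_lt hN hw)
  unfold Af
  have e1 : Λ (X * pol p u * pol p (M.mulVec w)) = Φ (X * pol p u * pol p w) := by
    rw [hu', mul_comm, ← transfer h, mul_comm]
  have e2 : Λ (X * pol p (M.mulVec u) * pol p w) = Φ (X * pol p u * pol p w) := by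
    rw [show X * pol p (M.mulVec u) * pol p w = pol p (M.mulVec u) * (X * pol p w) by ring, hw',
      ← transfer h, ← hw', show pol p u * (X * pol p w) = X * pol p u * pol p w by ring]
  rw [e1, e2, sub_self]

include hN hspan in
/-- the displacement equation -/
theorem displacement [DecidableEq ι] (hp : ∀ j, (p j).degree < N)
    (h : ∀ i j, Φ (p i * p j) = ∑ l, M l i * Λ (p l * p j)) : ∃ al : ι → ℂ, ∀ i j,
    ∑ k, M k j * Λ (X * p i * p k) - ∑ k, M k i * Λ (X * p k * p j) =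
      al i * (p j).coeff (N - 1) - (p i).coeff (N - 1) * al j := by
  obtain ⟨u₀, hu₀⟩ := hspan (X ^ (N - 1)) (by
    rw [degree_X_pow]
    exact_mod_cast (show N - 1 < N by omega))
  have hl₀ : (pol p u₀).coeff (N - 1) = 1 := by rw [← hu₀, coeff_X_pow, if_pos rfl]
  have h00 : Af p Λ M u₀ u₀ = 0 := by
    have := Af_anti (p := p) Λ M u₀ u₀
    have h2 : (2 : ℂ) * Af p Λ M u₀ u₀ = 0 := by linear_combination this
    exact (mul_eq_zero.1 h2).resolve_left two_ne_zero
  have hsing : ∀ i, pol p (Pi.single i 1) = p i := by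
    intro i
    unfold pol
    rw [Finset.sum_eq_single i]
    · simp
    · intro k _ hk
      rw [Pi.single_eq_of_ne hk, zero_smul]
    · intro hi
      exact absurd (Finset.mem_univ i) hi
  have hval : ∀ i j, Af p Λ M (Pi.single i 1) (Pi.single j 1) =
      ∑ k, M k j * Λ (X * p i * p k) - ∑ k, M k i * Λ (X * p k * p j) := by
    intro i j
    have hmv : ∀ i, M.mulVec (Pi.single i 1) = fun k => M k i := by
      intro i
      rw [Matrix.mulVec_single_one]
      rfl
    unfold Af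
    rw [hsing, hsing, hmv, hmv, map_pol]
    congr 1
    · exact Finset.sum_congr rfl fun k _ => mul_comm _ _
    · rw [show X * pol p (fun k => M k i) * p j = (X * p j) * pol p (fun k => M k i) by ring,
        map_pol]
      refine Finset.sum_congr rfl fun k _ => ?_
      rw [mul_comm, show X * p j * p k = X * p k * p j by ring]
  have hdec : ∀ i, ∃ v : ι → ℂ, (pol p v).degree < (N - 1 : ℕ) ∧
      (Pi.single i 1 : ι → ℂ) = v + (p i).coeff (N - 1) • u₀ := by
    intro i
    refine ⟨Pi.single i 1 - (p i).coeff (N - 1) • u₀, ?_, by simp⟩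
    refine degree_lt_pred (pol_degree hp _) ?_
    have : pol p (Pi.single i 1 - (p i).coeff (N - 1) • u₀) =
        p i - (p i).coeff (N - 1) • pol p u₀ := by
      rw [sub_eq_add_neg, pol_add, hsing, ← neg_smul, pol_smul, neg_smul, ← sub_eq_add_neg]
    rw [this, coeff_sub, coeff_smul, hl₀, smul_eq_mul, mul_one, sub_self]
  refine ⟨fun i => Af p Λ M (Pi.single i 1) u₀, fun i j => ?_⟩
  rw [← hval]
  obtain ⟨v, hv, hvi⟩ := hdec i
  obtain ⟨v', hv', hvj⟩ := hdec j
  simp only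
  rw [hvi, hvj]
  simp only [Af_add, Af_add', Af_smul, Af_smul', h00, mul_zero, add_zero]
  rw [Af_zero hN hspan h v v' hv hv', Af_anti Λ M u₀ v']
  ring

end

theorem impossible {p : Fin 5 → ℂ[X]} (hp : ∀ j, (p j).degree < (5 : ℕ))
    (hspan : ∀ r : ℂ[X], r.degree < (5 : ℕ) → ∃ x : Fin 5 → ℂ, r = pol p x)
    (hinj : ∀ x : Fin 5 → ℂ, pol p x = 0 → x = 0) (Λ Φ Ψ : ℂ[X] →ₗ[ℂ] ℂ)
    (hnd : ∀ r : ℂ[X], r.degree < (5 : ℕ) → (∀ j, Λ (r * p j) = 0) → r = 0)
    (h : ∀ i j, Φ (p i * p j) = ∑ l, M₅ l i * Λ (p l * p j))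
    (h' : ∀ i j, Ψ (p i * p j) = ∑ l, M₅' l i * Λ (p l * p j)) : False := by
  obtain ⟨al, hal⟩ := displacement (N := 5) (by norm_num) hspan hp h
  obtain ⟨al', hal'⟩ := displacement (N := 5) (by norm_num) hspan hp h'
  refine no_structure (Z := fun i j => Λ (X * p i * p j)) (G := fun i j => Λ (p i * p j))
    (l := fun i => (p i).coeff 4) (al := al) (al' := al') ?_ ?_ hal hal' ?_ ?_ ?_ ?_
  · intro i j
    show Λ (X * p i * p j) = Λ (X * p j * p i)
    rw [show X * p i * p j = X * p j * p i by ring]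
  · intro i j
    show Λ (p i * p j) = Λ (p j * p i)
    rw [mul_comm]
  · intro i j
    show ∑ k, M₅ k j * Λ (p i * p k) = ∑ k, M₅ k i * Λ (p k * p j)
    rw [← h i j, mul_comm (p i), h j i]
    exact Finset.sum_congr rfl fun k _ => by rw [mul_comm (p i)]
  · intro i j
    show ∑ k, M₅' k j * Λ (p i * p k) = ∑ k, M₅' k i * Λ (p k * p j)
    rw [← h' i j, mul_comm (p i), h' j i]
    exact Finset.sum_congr rfl fun k _ => by rw [mul_comm (p i)]
  · intro x hx
    refine hinj x (hnd _ (pol_degree hp x) fun j => ?_)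
    rw [mul_comm, map_pol]
    exact hx j
  · intro x z hl hx
    have hl' : (pol p x).coeff (5 - 1) = 0 := by rw [pol_coeff]; exact hl
    have hd := degree_lt_pred (pol_degree hp x) hl'
    have hd1 := degree_X_mul_lt (N := 5) (by norm_num) hd
    have hd2 : (((X : ℂ[X]) - C z) * pol p x).degree < ((5 : ℕ) : WithBot ℕ) := by
      rw [sub_mul]
      refine (degree_sub_le _ _).trans_lt (max_lt hd1 ?_)
      rw [← smul_eq_C_mul]
      exact (degree_smul_le _ _).trans_lt (pol_degree hp x)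
    have h0 := hnd _ hd2 (fun j => by
      have e : ((X : ℂ[X]) - C z) * pol p x * p j = (X * p j) * pol p x - z • (p j * pol p x) := by
        rw [smul_eq_C_mul]; ring
      rw [e, map_sub, map_smul, map_pol, map_pol, smul_eq_mul]
      rw [hx j, sub_self])
    rcases mul_eq_zero.1 h0 with h1 | h1
    · exact absurd h1 (X_sub_C_ne_zero z)
    · exact hinj x h1

end Q219.TTO
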