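import Pool.Agent.Q219.TTO.Def
import Pool.Agent.Q219.TTO.Str

/-!
# Matrices of truncated Toeplitz operators and functionals on polynomials
-/

set_option autoImplicit false

namespace Q219.TTO

open MeasureTheory Complex Polynomial

variable {ι : Type*} [Fintype ι]

/-- the denominator -/
noncomputable def den (a : ι → ℂ) (z : ℂ) : ℂ := ∏ j, (1 - star (a j) * z)

/-- the function with numerator `p` -/
noncomputable def fr (a : ι → ℂ) (p : ℂ[X]) : ℂ → ℂ :=
  fun z => p.eval z / ∏ j, (1 - star (a j) * z)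

theorem den_ne {a : ι → ℂ} (ha : ∀ j, ‖a j‖ < 1) {z : ℂ} (hz : ‖z‖ ≤ 1) : den a z ≠ 0 := by
  unfold den
  refine Finset.prod_ne_zero_iff.2 fun j _ h => ?_
  have h1 : star (a j) * z = 1 := (sub_eq_zero.1 h).symm
  have h2 : ‖star (a j) * z‖ = 1 := by rw [h1, norm_one]
  rw [norm_mul, norm_star] at h2
  nlinarith [ha j, norm_nonneg z, norm_nonneg (a j)]

/-- the weight -/
noncomputable def Wt (a : ι → ℂ) (t : ℝ) : ℂ :=
  star (exp ((t : ℂ) * I)) ^ (Fintype.card ι - 1) /
    (den a (exp ((t : ℂ) * I)) * star (den a (exp ((t : ℂ) * I))))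

theorem Wt_cont {a : ι → ℂ} (ha : ∀ j, ‖a j‖ < 1) : Continuous (Wt a) := by
  unfold Wt
  have h1 : Continuous fun t : ℝ => den a (exp ((t : ℂ) * I)) := by
    unfold den
    fun_prop
  refine Continuous.div (by fun_prop) (h1.mul (continuous_star.comp h1)) fun t => ?_
  have := den_ne ha (norm_exp_I t).le
  exact mul_ne_zero this (star_ne_zero.2 this)

/-- the functional on polynomials -/
noncomputable def Lf (a : ι → ℂ) (φ : ℂ → ℂ) (h : ℂ[X]) : ℂ :=
  av (fun t => φ (exp ((t : ℂ) * I)) * (h.eval (exp ((t : ℂ) * I)) * Wt a t))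

theorem eval_cont (h : ℂ[X]) : Continuous fun t : ℝ => h.eval (exp ((t : ℂ) * I)) :=
  h.continuous.comp exp_cont

theorem int0_val {a : ι → ℂ} (ha : ∀ j, ‖a j‖ < 1) {φ : ℂ → ℂ} (hφ : IsSymbol φ) (h : ℂ[X]) :
    Int0 (fun t => φ (exp ((t : ℂ) * I)) * (h.eval (exp ((t : ℂ) * I)) * Wt a t)) :=
  hφ.int0 ((eval_cont h).mul (Wt_cont ha))

/-- the functional as a linear map -/
noncomputable def Lm {a : ι → ℂ} (ha : ∀ j, ‖a j‖ < 1) {φ : ℂ → ℂ} (hφ : IsSymbol φ) :
    ℂ[X] →ₗ[ℂ] ℂ where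
  toFun := Lf a φ
  map_add' h k := by
    unfold Lf
    rw [← av_add (int0_val ha hφ h) (int0_val ha hφ k)]
    refine av_congr fun t => ?_
    rw [eval_add]
    ring
  map_smul' c h := by
    unfold Lf
    rw [RingHom.id_apply, smul_eq_mul, ← av_smul]
    refine av_congr fun t => ?_
    rw [eval_smul, smul_eq_mul]
    ring

theorem Lm_apply {a : ι → ℂ} (ha : ∀ j, ‖a j‖ < 1) {φ : ℂ → ℂ} (hφ : IsSymbol φ) (h : ℂ[X]) :
    Lm ha hφ h = Lf a φ h := rfl

/-! ### The reversed conjugate polynomial -/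

/-- the reversed conjugate polynomial -/
noncomputable def sharp (n : ℕ) (r : ℂ[X]) : ℂ[X] :=
  ∑ m ∈ Finset.range n, C (star (r.coeff (n - 1 - m))) * X ^ m

theorem sharp_degree (n : ℕ) (r : ℂ[X]) : (sharp n r).degree < (n : ℕ) := by
  refine mem_degreeLT.1 (Submodule.sum_mem _ fun m hm => mem_degreeLT.2 ?_)
  refine (degree_C_mul_X_pow_le _ _).trans_lt ?_
  exact_mod_cast Finset.mem_range.1 hm

theorem sharp_coeff {n m : ℕ} (hm : m < n) (r : ℂ[X]) :
    (sharp n r).coeff m = star (r.coeff (n - 1 - m)) := by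
  unfold sharp
  rw [finsetSum_coeff, Finset.sum_eq_single m]
  · rw [coeff_C_mul_X_pow, if_pos rfl]
  · intro k _ hk
    rw [coeff_C_mul_X_pow, if_neg hk.symm]
  · intro h
    exact absurd (Finset.mem_range.2 hm) h

theorem sharp_sharp {n : ℕ} {r : ℂ[X]} (hr : r.degree < (n : ℕ)) : sharp n (sharp n r) = r := by
  ext m
  rcases Nat.lt_or_ge m n with h | h
  · rw [sharp_coeff h, sharp_coeff (by omega), star_star]
    congr 1
    omega
  · rw [degree_lt_iff_coeff_zero] at hr
    have h1 := sharp_degree n (sharp n r)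
    rw [degree_lt_iff_coeff_zero] at h1
    rw [h1 m h, hr m h]

theorem sharp_pol (n : ℕ) (p : ι → ℂ[X]) (x : ι → ℂ) :
    sharp n (pol p x) = ∑ j, star (x j) • sharp n (p j) := by
  ext m
  rcases Nat.lt_or_ge m n with h | h
  · rw [sharp_coeff h, finsetSum_coeff, pol_coeff, star_sum]
    refine Finset.sum_congr rfl fun j _ => ?_
    rw [coeff_smul, sharp_coeff h, star_mul', smul_eq_mul, mul_comm]
  · have h1 := sharp_degree n (pol p x)
    rw [degree_lt_iff_coeff_zero] at h1
    rw [h1 m h, finsetSum_coeff]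
    symm
    refine Finset.sum_eq_zero fun j _ => ?_
    have h2 := sharp_degree n (p j)
    rw [degree_lt_iff_coeff_zero] at h2
    rw [coeff_smul, h2 m h, smul_zero]

theorem sharp_eval {n : ℕ} (hn : 0 < n) {r : ℂ[X]} (hr : r.degree < (n : ℕ)) {z : ℂ}
    (hz : z * star z = 1) : star (r.eval z) = star z ^ (n - 1) * (sharp n r).eval z := by
  have hd : ∀ {q : ℂ[X]}, q.degree < (n : ℕ) → q.natDegree < n := by
    intro q hq
    by_cases h0 : q = 0
    · rw [h0, natDegree_zero]; exact hn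
    · exact (natDegree_lt_iff_degree_lt h0).2 hq
  rw [eval_eq_sum_range' (hd hr), eval_eq_sum_range' (hd (sharp_degree n r)), star_sum,
    Finset.mul_sum, ← Finset.sum_range_reflect]
  refine Finset.sum_congr rfl fun m hm => ?_
  have hm' := Finset.mem_range.1 hm
  rw [sharp_coeff hm', star_mul', star_pow]
  have e : n - 1 = (n - 1 - m) + m := by omega
  have e2 : star z ^ (n - 1) * z ^ m = star z ^ (n - 1 - m) := by
    calc star z ^ (n - 1) * z ^ m = star z ^ (n - 1 - m) * (z * star z) ^ m := by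
          rw [mul_pow, show star z ^ (n - 1) = star z ^ (n - 1 - m) * star z ^ m by
            rw [← pow_add, ← e]]
          ring
      _ = _ := by rw [hz, one_pow, mul_one]
  rw [← e2]
  ring

/-- the entries are values of the functional -/
theorem inner_eq {a : ι → ℂ} (hn : 0 < Fintype.card ι) (φ : ℂ → ℂ) (p : ℂ[X])
    {r : ℂ[X]} (hr : r.degree < (Fintype.card ι : ℕ)) :
    inner2 (fun z => φ z * fr a p z) (fr a r) = Lf a φ (p * sharp (Fintype.card ι) r) := by
  rw [inner2_eq]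
  unfold Lf
  refine av_congr fun t => ?_
  have h1 := sharp_eval hn hr (exp_star t)
  unfold fr Wt den
  rw [star_div₀, h1, eval_mul]
  rw [div_eq_mul_inv, div_eq_mul_inv, div_eq_mul_inv, mul_inv]
  ring

theorem span_of_inj {p : ι → ℂ[X]} (hp : ∀ j, (p j).degree < (Fintype.card ι : ℕ))
    (hinj : ∀ x : ι → ℂ, pol p x = 0 → x = 0) (r : ℂ[X]) (hr : r.degree < (Fintype.card ι : ℕ)) :
    ∃ x : ι → ℂ, r = pol p x := by
  obtain ⟨v, hv⟩ : ∃ v : ι → degreeLT ℂ (Fintype.card ι), ∀ j, (v j : ℂ[X]) = p j :=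
    ⟨fun j => ⟨p j, mem_degreeLT.2 (hp j)⟩, fun _ => rfl⟩
  have hsum : ∀ g : ι → ℂ, ((∑ j, g j • v j : degreeLT ℂ (Fintype.card ι)) : ℂ[X]) = pol p g := by
    intro g
    unfold pol
    rw [Submodule.coe_sum]
    exact Finset.sum_congr rfl fun j _ => by rw [Submodule.coe_smul, hv]
  have hli : LinearIndependent ℂ v := by
    rw [Fintype.linearIndependent_iff]
    intro g hg j
    have h1 : pol p g = 0 := by rw [← hsum, hg]; rfl
    exact congrFun (hinj g h1) j
  have hcard : Fintype.card ι = Module.finrank ℂ (degreeLT ℂ (Fintype.card ι)) := by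
    rw [(degreeLTEquiv ℂ (Fintype.card ι)).finrank_eq, Module.finrank_fin_fun]
  have hspan := hli.span_eq_top_of_card_eq_finrank' hcard
  have hmem : (⟨r, mem_degreeLT.2 hr⟩ : degreeLT ℂ (Fintype.card ι)) ∈
      Submodule.span ℂ (Set.range v) := by rw [hspan]; trivial
  obtain ⟨g, hg⟩ := (Submodule.mem_span_range_iff_exists_fun ℂ).1 hmem
  exact ⟨g, by rw [← hsum, hg]⟩

theorem data [DecidableEq ι] {M : Matrix ι ι ℂ} (hn : 0 < Fintype.card ι) (h : UETTO M) :
    ∃ (p : ι → ℂ[X]) (Λ Φ Ψ : ℂ[X] →ₗ[ℂ] ℂ), (∀ j, (p j).degree < (Fintype.card ι : ℕ)) ∧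
      (∀ r : ℂ[X], r.degree < (Fintype.card ι : ℕ) → ∃ x : ι → ℂ, r = pol p x) ∧
      (∀ x : ι → ℂ, pol p x = 0 → x = 0) ∧
      (∀ r : ℂ[X], r.degree < (Fintype.card ι : ℕ) → (∀ j, Λ (r * p j) = 0) → r = 0) ∧
      (∀ i j, Φ (p i * p j) = ∑ l, M l i * Λ (p l * p j)) ∧
      (∀ i j, Ψ (p i * p j) = ∑ l, M.conjTranspose l i * Λ (p l * p j)) := by
  obtain ⟨a, φ, e, ha, hφ, he, ho, hM⟩ := h
  choose p hp he using he
  have he' : ∀ j, e j = fr a (p j) := he
  obtain ⟨s, hs⟩ : ∃ s : ι → ℂ[X], s = fun j => sharp (Fintype.card ι) (p j) := ⟨_, rfl⟩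
  have hs' : ∀ j, s j = sharp (Fintype.card ι) (p j) := fun j => by rw [hs]
  have h1 : ∀ i j, Lm ha (isSymbol_const 1) (p j * s i) = if i = j then 1 else 0 := by
    intro i j
    rw [← ho i j, Lm_apply, hs', ← inner_eq hn _ _ (hp i), he', he']
    congr 1
    funext z
    rw [one_mul]
  have h2 : ∀ i j, Lm ha hφ (p j * s i) = M i j := by
    intro i j
    rw [← hM, Lm_apply, hs', ← inner_eq hn _ _ (hp i), ← he', ← he']
    rfl
  have h3 : ∀ i j, Lm ha hφ.star (p j * s i) = M.conjTranspose i j := by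
    intro i j
    rw [Matrix.conjTranspose_apply, ← hM, Lm_apply, hs', ← inner_eq hn _ _ (hp i), ← he', ← he']
    show _ = star (inner2 (fun z => φ z * e i z) (e j))
    rw [inner2_eq, inner2_eq, av_star]
    refine av_congr fun t => ?_
    rw [star_mul', star_mul', star_star]
    ring
  have hx : ∀ (x : ι → ℂ) (i : ι), Lm ha (isSymbol_const 1) (s i * pol p x) = x i := by
    intro x i
    rw [map_pol, Finset.sum_eq_single i]
    · rw [mul_comm (s i), h1, if_pos rfl, one_mul]
    · intro j _ hj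
      rw [mul_comm (s i), h1, if_neg (Ne.symm hj), zero_mul]
    · intro hi
      exact absurd (Finset.mem_univ i) hi
  have hinj : ∀ x : ι → ℂ, pol p x = 0 → x = 0 := by
    intro x hx0
    funext i
    rw [← hx x i, hx0, mul_zero, map_zero]
    rfl
  have hspan := span_of_inj hp hinj
  have hspan' : ∀ r : ℂ[X], r.degree < (Fintype.card ι : ℕ) → ∃ y : ι → ℂ, r = pol s y := by
    intro r hr
    obtain ⟨x, hx⟩ := hspan _ (sharp_degree (Fintype.card ι) r)
    refine ⟨fun l => star (x l), ?_⟩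
    rw [← sharp_sharp hr, hx, sharp_pol]
    unfold pol
    exact Finset.sum_congr rfl fun j _ => by rw [hs']
  refine ⟨p, Lm ha (isSymbol_const 1), Lm ha hφ, Lm ha hφ.star, hp, hspan, hinj, ?_, ?_, ?_⟩
  · intro r hr h0
    obtain ⟨x, rfl⟩ := hspan r hr
    have : x = 0 := by
      funext i
      obtain ⟨z, hz⟩ := hspan (s i) (by rw [hs']; exact sharp_degree _ _)
      rw [← hx x i, mul_comm, hz, map_pol]
      exact Finset.sum_eq_zero fun j _ => by rw [h0 j, zero_mul]
    rw [this]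
    unfold pol
    simp
  · intro i j
    obtain ⟨y, hy⟩ := hspan' (p j) (hp j)
    have h4 : ∀ l, Lm ha (isSymbol_const 1) (p l * p j) = y l := by
      intro l
      rw [hy, map_pol, Finset.sum_eq_single l]
      · rw [h1, if_pos rfl, one_mul]
      · intro k _ hk
        rw [h1, if_neg hk, zero_mul]
      · intro hi
        exact absurd (Finset.mem_univ l) hi
    simp only [h4]
    rw [hy, map_pol]
    exact Finset.sum_congr rfl fun k _ => by rw [h2]
  · intro i j
    obtain ⟨y, hy⟩ := hspan' (p j) (hp j)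
    have h4 : ∀ l, Lm ha (isSymbol_const 1) (p l * p j) = y l := by
      intro l
      rw [hy, map_pol, Finset.sum_eq_single l]
      · rw [h1, if_pos rfl, one_mul]
      · intro k _ hk
        rw [h1, if_neg hk, zero_mul]
      · intro hi
        exact absurd (Finset.mem_univ l) hi
    simp only [h4]
    rw [hy, map_pol]
    exact Finset.sum_congr rfl fun k _ => by rw [h3]

theorem not_five : ¬ UETTO M₅ := by
  intro h
  obtain ⟨p, Λ, Φ, Ψ, h1, h2, h3, h4, h5, h6⟩ := data (by simp) h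
  have e : (Fintype.card (Fin 5)) = 5 := by simp
  rw [e] at h1 h2 h4
  have hc : M₅.conjTranspose = M₅' := by
    ext i j
    fin_cases i <;> fin_cases j <;> simp [M₅, M₅']
  rw [hc] at h6
  exact impossible h1 h2 h3 Λ Φ Ψ h4 h5 h6

end Q219.TTO
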