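import Mathlib

/-!
# Truncated Toeplitz operators on finite-dimensional model spaces
-/

set_option autoImplicit false

namespace Q219.TTO

open MeasureTheory Complex Polynomial

/-- The inner product of `L²` of the unit circle with normalised arc length. -/
noncomputable def inner2 (f g : ℂ → ℂ) : ℂ :=
  (1 / (2 * (Real.pi : ℂ))) * ∫ t in (0 : ℝ)..(2 * Real.pi),
    f (exp ((t : ℂ) * I)) * star (g (exp ((t : ℂ) * I)))

/-- `φ` is a square integrable symbol on the unit circle. -/
def IsSymbol (φ : ℂ → ℂ) : Prop :=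
  MemLp (fun t : ℝ => φ (exp ((t : ℂ) * I))) 2 (volume.restrict (Set.Ioc 0 (2 * Real.pi)))

variable {ι : Type*} [Fintype ι]

/-- The model space `H² ⊖ Θ H²` of the finite Blaschke product `Θ` with zeros `a`: the functions
`p / ∏ (1 - conj (a j) z)` with `p` a polynomial of degree less than the number of zeros. -/
def modelSpace (a : ι → ℂ) : Set (ℂ → ℂ) :=
  {f | ∃ p : Polynomial ℂ, p.degree < (Fintype.card ι : ℕ) ∧
    f = fun z => p.eval z / ∏ j, (1 - star (a j) * z)}

/-- The matrix of the truncated Toeplitz operator with symbol `φ` in the orthonormal basis `e` of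
the model space: its entries are `⟨A e_j, e_i⟩ = ⟨φ e_j, e_i⟩`. -/
noncomputable def ttoMatrix (φ : ℂ → ℂ) (e : ι → ℂ → ℂ) : Matrix ι ι ℂ :=
  Matrix.of fun i j => inner2 (fun z => φ z * e j z) (e i)

/-- `M` is unitarily equivalent to a truncated Toeplitz operator: it is the matrix of a truncated
Toeplitz operator in some orthonormal basis of the model space of a finite Blaschke product. -/
def UETTO [DecidableEq ι] (M : Matrix ι ι ℂ) : Prop :=
  ∃ (a : ι → ℂ) (φ : ℂ → ℂ) (e : ι → ℂ → ℂ), (∀ j, ‖a j‖ < 1) ∧ IsSymbol φ ∧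
    (∀ j, e j ∈ modelSpace a) ∧ (∀ i j, inner2 (e j) (e i) = if i = j then 1 else 0) ∧
    ttoMatrix φ e = M

/-! ### Averages over the circle -/

/-- the average of a function of the angle -/
noncomputable def av (F : ℝ → ℂ) : ℂ :=
  (1 / (2 * (Real.pi : ℂ))) * ∫ t in (0 : ℝ)..(2 * Real.pi), F t

/-- integrability -/
def Int0 (F : ℝ → ℂ) : Prop := IntervalIntegrable F volume 0 (2 * Real.pi)

theorem inner2_eq (f g : ℂ → ℂ) : inner2 f g =
    av (fun t => f (exp ((t : ℂ) * I)) * star (g (exp ((t : ℂ) * I)))) := rfl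

theorem av_congr {F G : ℝ → ℂ} (h : ∀ t, F t = G t) : av F = av G := by
  rw [funext h]

theorem av_add {F G : ℝ → ℂ} (hF : Int0 F) (hG : Int0 G) :
    av (fun t => F t + G t) = av F + av G := by
  unfold av
  rw [intervalIntegral.integral_add hF hG, mul_add]

theorem av_smul (c : ℂ) (F : ℝ → ℂ) : av (fun t => c * F t) = c * av F := by
  unfold av
  rw [intervalIntegral.integral_const_mul]
  ring

theorem av_sum {κ : Type*} (s : Finset κ) {F : κ → ℝ → ℂ} (hF : ∀ k ∈ s, Int0 (F k)) :
    av (fun t => ∑ k ∈ s, F k t) = ∑ k ∈ s, av (F k) := by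
  unfold av
  rw [intervalIntegral.integral_finsetSum hF, Finset.mul_sum]

theorem av_star (F : ℝ → ℂ) : star (av F) = av (fun t => star (F t)) := by
  unfold av
  simp only [Complex.star_def]
  rw [map_mul, map_div₀, map_one, map_mul, Complex.conj_ofReal, map_ofNat,
    ← intervalIntegral.intervalIntegral_conj]

theorem Int0.add {F G : ℝ → ℂ} (hF : Int0 F) (hG : Int0 G) : Int0 (fun t => F t + G t) :=
  IntervalIntegrable.add hF hG

theorem Int0.smul {F : ℝ → ℂ} (hF : Int0 F) (c : ℂ) : Int0 (fun t => c * F t) :=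
  IntervalIntegrable.const_mul hF c

theorem int0_cont {F : ℝ → ℂ} (hF : Continuous F) : Int0 F := hF.intervalIntegrable _ _

theorem IsSymbol.int0 {φ : ℂ → ℂ} (hφ : IsSymbol φ) {G : ℝ → ℂ} (hG : Continuous G) :
    Int0 (fun t => φ (exp ((t : ℂ) * I)) * G t) := by
  have h1 : IntervalIntegrable (fun t : ℝ => φ (exp ((t : ℂ) * I))) volume 0 (2 * Real.pi) := by
    rw [intervalIntegrable_iff_integrableOn_Ioc_of_le (by positivity)]
    exact MemLp.integrable one_le_two hφ
  exact h1.mul_continuousOn hG.continuousOn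

theorem norm_exp_I (t : ℝ) : ‖exp ((t : ℂ) * I)‖ = 1 := Complex.norm_exp_ofReal_mul_I t

theorem exp_star (t : ℝ) : exp ((t : ℂ) * I) * star (exp ((t : ℂ) * I)) = 1 := by
  rw [Complex.star_def, Complex.mul_conj, Complex.normSq_eq_norm_sq, norm_exp_I]
  norm_num

theorem exp_cont : Continuous fun t : ℝ => exp ((t : ℂ) * I) := by fun_prop

theorem isSymbol_const (c : ℂ) : IsSymbol (fun _ => c) := by
  unfold IsSymbol
  exact memLp_const c

theorem IsSymbol.star {φ : ℂ → ℂ} (hφ : IsSymbol φ) : IsSymbol (fun z => star (φ z)) := by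
  unfold IsSymbol at hφ ⊢
  exact MemLp.star hφ

theorem IsSymbol.add {φ ψ : ℂ → ℂ} (hφ : IsSymbol φ) (hψ : IsSymbol ψ) :
    IsSymbol (fun z => φ z + ψ z) := by
  unfold IsSymbol at hφ hψ ⊢
  exact MemLp.add hφ hψ

theorem isSymbol_cont {φ : ℂ → ℂ} (h : Continuous fun t : ℝ => φ (exp ((t : ℂ) * I))) :
    IsSymbol φ := by
  unfold IsSymbol
  obtain ⟨C, hC⟩ := (isCompact_Icc (a := (0 : ℝ)) (b := 2 * Real.pi)).exists_bound_of_continuousOn
    h.continuousOn
  refine MemLp.of_bound h.aestronglyMeasurable C ?_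
  rw [ae_restrict_iff' measurableSet_Ioc]
  exact Filter.Eventually.of_forall fun t ht => hC t (Set.Ioc_subset_Icc_self ht)

end Q219.TTO
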