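import Pool.Agent.Q219.TTO.Ana

/-!
# Some `T` is a truncated Toeplitz operator and `T ⊕ 0` is not
-/

set_option autoImplicit false

namespace Q219.TTO

open MeasureTheory Complex Polynomial

variable {ι κ : Type*} [Fintype ι] [Fintype κ]

theorem Lf_add_const {a : ι → ℂ} (ha : ∀ j, ‖a j‖ < 1) {φ : ℂ → ℂ} (hφ : IsSymbol φ) (c : ℂ)
    (h : ℂ[X]) : Lf a (fun z => φ z + c) h = Lf a φ h + c * Lf a (fun _ => 1) h := by
  unfold Lf
  rw [← av_smul, ← av_add (int0_val ha hφ h) ((int0_val ha (isSymbol_const 1) h).smul c)]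
  refine av_congr fun t => ?_
  ring

/-- adding a scalar -/
theorem UETTO.add_scalar [DecidableEq ι] (hn : 0 < Fintype.card ι) {M : Matrix ι ι ℂ}
    (h : UETTO M) (c : ℂ) : UETTO (M + c • (1 : Matrix ι ι ℂ)) := by
  obtain ⟨a, φ, e, ha, hφ, he, ho, hM⟩ := h
  refine ⟨a, fun z => φ z + c, e, ha, hφ.add (isSymbol_const c), he, ho, ?_⟩
  choose p hp he using he
  have he' : ∀ j, e j = fr a (p j) := he
  ext i j
  rw [Matrix.add_apply, ← hM, Matrix.smul_apply, Matrix.one_apply, ← ho i j, smul_eq_mul]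
  show inner2 (fun z => (φ z + c) * e j z) (e i) =
    inner2 (fun z => φ z * e j z) (e i) + c * inner2 (e j) (e i)
  have h1 : inner2 (e j) (e i) = inner2 (fun z => 1 * fr a (p j) z) (fr a (p i)) := by
    rw [he', he']
    congr 1
    funext z
    rw [one_mul]
  rw [h1, he', he', inner_eq hn (fun z => φ z + c) _ (hp i), inner_eq hn φ _ (hp i),
    inner_eq hn (fun _ => 1) _ (hp i), Lf_add_const ha hφ]

/-- renaming the indices -/
theorem UETTO.reindex [DecidableEq ι] [DecidableEq κ] {M : Matrix ι ι ℂ} (h : UETTO M)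
    (σ : κ ≃ ι) : UETTO (M.submatrix σ σ) := by
  obtain ⟨a, φ, e, ha, hφ, he, ho, hM⟩ := h
  refine ⟨fun k => a (σ k), φ, fun k => e (σ k), fun k => ha _, hφ, fun k => ?_, fun i j => ?_, ?_⟩
  · obtain ⟨p, hp, hpe⟩ := he (σ k)
    refine ⟨p, ?_, ?_⟩
    · rwa [Fintype.card_congr σ]
    · show e (σ k) = _
      rw [hpe]
      funext z
      rw [← Equiv.prod_comp σ fun j => 1 - star (a j) * z]
  · rw [ho]
    simp [σ.injective.eq_iff]
  · rw [← hM]
    rfl

/-- the direct sum of `T` and of the zero operator on a line -/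
def plusZero {n : ℕ} (M : Matrix (Fin n) (Fin n) ℂ) :
    Matrix (Fin n ⊕ Fin 1) (Fin n ⊕ Fin 1) ℂ :=
  Matrix.fromBlocks M 0 0 0

/-- adding an eigenvalue -/
noncomputable def ext1 {n : ℕ} (M : Matrix (Fin n) (Fin n) ℂ) (c : ℂ) :
    Matrix (Fin (n + 1)) (Fin (n + 1)) ℂ :=
  (Matrix.fromBlocks M 0 0 (Matrix.of fun _ _ => c) :
    Matrix (Fin n ⊕ Fin 1) (Fin n ⊕ Fin 1) ℂ).submatrix finSumFinEquiv.symm finSumFinEquiv.symm

theorem step {n : ℕ} (hn : 0 < n) (H : ∀ M : Matrix (Fin n) (Fin n) ℂ, UETTO M →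
    UETTO (plusZero M)) {M : Matrix (Fin n) (Fin n) ℂ} (h : UETTO M) (c : ℂ) :
    UETTO (ext1 M c) := by
  have h1 := H _ (h.add_scalar (by simpa using hn) (-c))
  have h2 := h1.add_scalar (by simp) c
  have h3 := h2.reindex (finSumFinEquiv (m := n) (n := 1)).symm
  have e : plusZero (M + -c • (1 : Matrix (Fin n) (Fin n) ℂ)) +
      c • (1 : Matrix (Fin n ⊕ Fin 1) (Fin n ⊕ Fin 1) ℂ) =
      Matrix.fromBlocks M 0 0 (Matrix.of fun _ _ => c) := by
    ext i j
    rcases i with i | i <;> rcases j with j | j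
    · by_cases hij : i = j
      · simp [plusZero, hij]
      · simp [plusZero, hij]
    · simp [plusZero]
    · simp [plusZero]
    · have : i = j := Subsingleton.elim _ _
      simp [plusZero, this]
  rw [e] at h3
  exact h3

/-- the nilpotent matrix -/
def E₂ : Matrix (Fin 2) (Fin 2) ℂ := !![0, 1; 0, 0]

theorem inner_pow (m n : ℕ) : inner2 (fun z => z ^ m) (fun z => z ^ n) =
    if m = n then 1 else 0 := by
  rw [inner2]
  have e : ∀ t : ℝ, exp ((t : ℂ) * I) ^ m * star (exp ((t : ℂ) * I) ^ n) =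
      exp ((((m : ℂ) - n) * I) * t) := by
    intro t
    rw [star_pow, Complex.star_def, ← Complex.exp_conj, ← Complex.exp_nat_mul,
      ← Complex.exp_nat_mul, ← Complex.exp_add]
    congr 1
    rw [map_mul, Complex.conj_ofReal, Complex.conj_I]
    ring
  simp only [e]
  have hpi : (Real.pi : ℂ) ≠ 0 := by exact_mod_cast Real.pi_ne_zero
  split_ifs with h
  · rw [h]
    simp
    field_simp
  · have hc : ((m : ℂ) - n) * I ≠ 0 :=
      mul_ne_zero (sub_ne_zero.2 (by exact_mod_cast h)) Complex.I_ne_zero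
    rw [integral_exp_mul_complex hc]
    have h1 : exp ((((m : ℂ) - n) * I) * ((2 * Real.pi : ℝ) : ℂ)) = 1 := by
      rw [Complex.exp_eq_one_iff]
      refine ⟨(m : ℤ) - n, ?_⟩
      push_cast
      ring
    rw [h1]
    simp

theorem E₂_tto : UETTO E₂ := by
  have hsp : ∀ k : ℕ, k < 2 → (fun z : ℂ => z ^ k) ∈ modelSpace (fun _ : Fin 2 => (0 : ℂ)) := by
    intro k hk
    refine ⟨X ^ k, ?_, ?_⟩
    · rw [degree_X_pow]
      simpa using hk
    · funext z
      simp
  refine ⟨fun _ => 0, fun z => z, ![fun z => z ^ 1, fun z => z ^ 0], fun _ => by simp,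
    isSymbol_cont exp_cont, ?_, ?_, ?_⟩
  · intro j
    fin_cases j
    · exact hsp 1 (by norm_num)
    · exact hsp 0 (by norm_num)
  · intro i j
    fin_cases i <;> fin_cases j
    · exact inner_pow 1 1
    · exact inner_pow 0 1
    · exact inner_pow 1 0
    · exact inner_pow 0 0
  · have h1 : ∀ k l : ℕ, inner2 (fun z => z * z ^ k) (fun z => z ^ l) =
        if k + 1 = l then 1 else 0 := by
      intro k l
      rw [← inner_pow]
      congr 1
      funext z
      ring
    ext i j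
    fin_cases i <;> fin_cases j
    · exact (h1 1 1).trans (by simp [E₂])
    · exact (h1 0 1).trans (by simp [E₂])
    · exact (h1 1 0).trans (by simp [E₂])
    · exact (h1 0 0).trans (by simp [E₂])

theorem M₅_eq : ext1 (ext1 (ext1 E₂ 1) (-1)) I = M₅ := by
  ext i j
  fin_cases i <;> fin_cases j <;> rfl

/-- the main theorem -/
theorem main : ∃ n : ℕ, 2 ≤ n ∧ n ≤ 4 ∧ ∃ M : Matrix (Fin n) (Fin n) ℂ,
    UETTO M ∧ ¬ UETTO (plusZero M) := by
  by_contra hcon
  have H : ∀ n : ℕ, 2 ≤ n → n ≤ 4 → ∀ M : Matrix (Fin n) (Fin n) ℂ, UETTO M →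
      UETTO (plusZero M) := by
    intro n h2 h4 M hM
    by_contra h
    exact hcon ⟨n, h2, h4, M, hM, h⟩
  have h3 := step (by norm_num) (H 2 le_rfl (by norm_num)) E₂_tto 1
  have h4 := step (by norm_num) (H 3 (by norm_num) (by norm_num)) h3 (-1)
  have h5 := step (by norm_num) (H 4 (by norm_num) le_rfl) h4 I
  rw [M₅_eq] at h5
  exact not_five h5

end Q219.TTO
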